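import Mathlib

/-!
# Random spanning tree exploration: definitions (helper42)

`V` finite vertex set, `Ω` finite set of snapshots, `M : Mdl V Ω` a law on connected graphs.
Everything is a finite weighted sum over lists of snapshots.
-/

open Finset

namespace Pool.Agent.RST

/-- indicator of a proposition -/
noncomputable def ind (p : Prop) : ℝ := by classical exact if p then 1 else 0

/-- a random connected snapshot on the vertex set `V` -/
structure Mdl (V Ω : Type) [Fintype Ω] where
  gr : Ω → SimpleGraph V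
  conn : ∀ T, (gr T).Connected
  w : Ω → ℝ
  w0 : ∀ T, 0 ≤ w T
  w1 : ∑ T, w T = 1

/-- expectation over lists of `s` iid snapshots -/
noncomputable def EL {Ω : Type} [Fintype Ω] (w : Ω → ℝ) : ℕ → (List Ω → ℝ) → ℝ
  | 0, f => f []
  | s + 1, f => ∑ T, w T * EL w s (fun l => f (T :: l))

/-- expectation over a product space -/
noncomputable def EX {ι Θ : Type} [Fintype ι] [DecidableEq ι] [Fintype Θ] (v : Θ → ℝ)
    (F : (ι → Θ) → ℝ) : ℝ :=
  ∑ θ : ι → Θ, (∏ i, v (θ i)) * F θ

/-- product weight on `Fin m → Ω` -/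
noncomputable def pw {Ω : Type} (w : Ω → ℝ) (m : ℕ) (θ : Fin m → Ω) : ℝ := ∏ i, w (θ i)

section walks

variable {V Ω : Type} [Fintype Ω]

/-- one step (or waiting) along the snapshot `T` -/
def Stp (M : Mdl V Ω) (T : Ω) (x z : V) : Prop := z = x ∨ (M.gr T).Adj x z

/-- `y` is reachable from `x` along the list of snapshots -/
def Reach (M : Mdl V Ω) : List Ω → V → V → Prop
  | [], x, y => x = y
  | T :: l, x, y => ∃ z, Stp M T x z ∧ Reach M l z y

/-- there is a walk along the list from `x` to `y` visiting all vertices of `B` -/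
def Wlk [DecidableEq V] (M : Mdl V Ω) : List Ω → V → V → Finset V → Prop
  | [], x, y, B => x = y ∧ B ⊆ {x}
  | T :: l, x, y, B => ∃ z B', Stp M T x z ∧ Wlk M l z y B' ∧ B ⊆ insert x B'

/-- probability that the snapshot has property `p` -/
noncomputable def P1 (M : Mdl V Ω) (p : Ω → Prop) : ℝ := ∑ T, M.w T * ind (p T)

/-- probability to reach the set `W` from `x` within `s` steps -/
noncomputable def pr (M : Mdl V Ω) (s : ℕ) (x : V) (W : Set V) : ℝ :=
  EL M.w s (fun l => ind (∃ y ∈ W, Reach M l x y))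

variable [Fintype V] [DecidableEq V]

/-- number of steps along `l` needed to visit everything outside `A` from `x`, truncated at
`l.length` -/
noncomputable def cost (M : Mdl V Ω) (l : List Ω) (x : V) (A : Finset V) : ℕ :=
  sInf ({t | ∃ y B, Wlk M (l.take t) x y B ∧ A ∪ B = Finset.univ} ∪ {l.length})

/-- exponential cost functional -/
noncomputable def Phi (M : Mdl V Ω) (lam : ℝ) (N : ℕ) (x : V) (A : Finset V) : ℝ :=
  EL M.w N (fun l => Real.exp (lam * cost M l x A))

/-- the calculus of the cost functional -/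
structure Calc (M : Mdl V Ω) (lam : ℝ) (Φ : V → Finset V → ℝ) : Prop where
  one_le : ∀ x A, 1 ≤ Φ x A
  full : ∀ x, Φ x Finset.univ ≤ 1
  anti : ∀ x A B, A ⊆ B → Φ x B ≤ Φ x A
  here : ∀ x A, Φ x A ≤ Φ x (insert x A)
  hit : ∀ (x : V) (A : Finset V) (W : Set V) (S : ℕ) (M0 E0 : ℝ), 1 ≤ M0 → (∀ u ∈ W, Φ u A ≤ M0) →
    ∑ s ∈ range S, (1 - pr M s x W) ≤ E0 → (1 - pr M S x W) * Real.exp (lam * S) < 1 →
    Φ x A ≤ M0 * Real.exp (lam * (E0 * Real.exp (lam * S) /
      (1 - (1 - pr M S x W) * Real.exp (lam * S))))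
  win : ∀ (x : V) (A : Finset V) (S : ℕ) (y : List Ω → V) (B : List Ω → Finset V),
    (∀ l, l.length = S → Wlk M l x (y l) (B l)) →
    Φ x A ≤ Real.exp (lam * S) * EL M.w S (fun l => Φ (y l) (A ∪ B l))

/-- `Hit Φ lam x W c`: going from `x` to the set `W` costs at most `c` -/
def Hit (Φ : V → Finset V → ℝ) (lam : ℝ) (x : V) (W : Set V) (c : ℝ) : Prop :=
  ∀ (A : Finset V) (M0 : ℝ), 1 ≤ M0 → (∀ u ∈ W, Φ u A ≤ M0) → Φ x A ≤ M0 * Real.exp (lam * c)

/-- partition into pieces -/
structure Pieces (M : Mdl V Ω) (P W : ℕ) (κ δ : ℝ) where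
  /-- index of the piece of a vertex; the index is a vertex of the piece -/
  pc : V → V
  idem : ∀ x, pc (pc x) = pc x
  /-- indices of big pieces -/
  big : Finset V
  big_card : (big.card : ℝ) * W ≤ 2 * Fintype.card V
  small_card : ∀ i, i ∉ big → (univ.filter (fun x => pc x = i)).card ≤ W
  small_edge : ∀ x y, pc x ∉ big → pc y ≠ pc x → P1 M (fun T => (M.gr T).Adj x y) ≤ κ
  cover : ∀ x y, pc x = pc y → 1 - δ ≤ pr M P x {y}

/-- exit map of the pieces -/
structure Ext (M : Mdl V Ω) (pc : V → V) (a : Ω → V → V) : Prop where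
  out : ∀ T z, pc (a T z) ≠ pc z
  edge : ∀ T z, ∃ u, pc u = pc z ∧ (M.gr T).Adj u (a T z)
  dep : ∀ T z z', pc z = pc z' → a T z = a T z'

/-- exit chain -/
def ch (a : Ω → V → V) : List Ω → V → V
  | [], z => z
  | T :: l, z => ch a l (a T z)

/-- vertices visited by the exit chain (without the start) -/
def ents (a : Ω → V → V) : List Ω → V → Finset V
  | [], _ => ∅
  | T :: l, z => insert (a T z) (ents a l (a T z))

/-- column `b` of a list of exit parts -/
def col (E : List (List Ω)) (b : ℕ) : List Ω := E.filterMap (fun e => e[b]?)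

/-- piece walk: between the exit parts one moves freely inside the pieces -/
def PW (M : Mdl V Ω) (pc : V → V) : List (List Ω) → V → V → Finset V → Prop
  | [], x, y, B => pc x = pc y ∧ B = ∅
  | e :: E, x, y, B => ∃ u v B1 B2, pc u = pc x ∧ Wlk M e u v B1 ∧ PW M pc E v y B2 ∧ B ⊆ B1 ∪ B2

/-- law of the exit chain at level `l` -/
noncomputable def gl (M : Mdl V Ω) (a : Ω → V → V) (x : V) (l : ℕ) (y : V) : ℝ :=
  EL M.w l (fun k => ind (ch a k x = y))

/-- average law of levels `1..L` -/
noncomputable def etaH (M : Mdl V Ω) (a : Ω → V → V) (L : ℕ) (x y : V) : ℝ :=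
  (∑ l ∈ range L, gl M a x (l + 1) y) / L

/-- `etaH`-mass of the pieces which exit at `y` in the snapshot `T` -/
noncomputable def gam (M : Mdl V Ω) (a : Ω → V → V) (L : ℕ) (x : V) (T : Ω) (y : V) : ℝ :=
  ∑ z, etaH M a L x z * ind (a T z = y)

/-- `etaH`-mass of a set of vertices -/
noncomputable def etaS (M : Mdl V Ω) (a : Ω → V → V) (L : ℕ) (x : V) (p : V → Prop) : ℝ :=
  ∑ z, etaH M a L x z * ind (p z)

/-- a piece is heavy if its `etaH`-mass is at least `M'/n` -/
def Hvy (M : Mdl V Ω) (pc : V → V) (a : Ω → V → V) (L : ℕ) (M' : ℝ) (x : V) (z : V) : Prop :=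
  M' / Fintype.card V ≤ etaS M a L x (fun u => pc u = pc z)

/-- unmarked probability at level `l` -/
noncomputable def unm (M : Mdl V Ω) (a : Ω → V → V) (L : ℕ) (c1 : ℝ) (x : V) (l : ℕ) : ℝ :=
  EL M.w l (fun k => P1 M (fun T => gam M a L x T (a T (ch a k x)) < c1))

/-- outcome of a snapshot for a walker waiting in the piece of `z` -/
noncomputable def outc (M : Mdl V Ω) (a : Ω → V → V) (L : ℕ) (c1 : ℝ) (x : V) (K : Set V) (z : V)
    (T : Ω) : Option V := by
  classical exact if c1 ≤ gam M a L x T (a T z) ∧ a T z ∈ K then some (a T z) else none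

/-- bad probability at level `l`: unmarked or outside `K` -/
noncomputable def bet (M : Mdl V Ω) (a : Ω → V → V) (L : ℕ) (c1 : ℝ) (x : V) (K : Set V) (l : ℕ) : ℝ :=
  EL M.w l (fun k => P1 M (fun T => outc M a L c1 x K (ch a k x) T = none))

/-- condition N: with probability `≥ 1 - c` the exit of `x` is within distance one of `W` -/
def CondN (M : Mdl V Ω) (a : Ω → V → V) (c : ℝ) (x : V) (W : Set V) : Prop :=
  1 - c ≤ P1 M (fun T => ∃ u ∈ W, Stp M T (a T x) u)

end walks

section parts
variable {Ω : Type} [Fintype Ω]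

/-- expectation over the cover parts (each of length `P`) given the exit parts `E` -/
noncomputable def EP (w : Ω → ℝ) (P : ℕ) : List (List Ω) → (List Ω → ℝ) → ℝ
  | [], f => EL w P f
  | e :: E, f => EL w P (fun c => EP w P E (fun l => f (c ++ (e ++ l))))

/-- expectation over exit parts with prescribed lengths -/
noncomputable def EE (w : Ω → ℝ) : List ℕ → (List (List Ω) → ℝ) → ℝ
  | [], g => g []
  | q :: qs, g => EL w q (fun e => EE w qs (fun E => g (e :: E)))

/-- recover the exit parts from the whole list -/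
def prt (P : ℕ) : List ℕ → List Ω → List (List Ω)
  | [], _ => []
  | q :: qs, k => ((k.drop P).take q) :: prt P qs (k.drop (P + q))

end parts

/-- a tour: consecutive vertices joined by legs of given costs, `R c u v` = leg from `u` to `v` of
cost `c` -/
def Tour {V : Type} (R : ℝ → V → V → Prop) : V → List (ℝ × V) → Prop
  | _, [] => True
  | v, (c, u) :: l => R c v u ∧ Tour R u l

section peel
variable {V Ω : Type} [Fintype Ω] [Fintype V] [DecidableEq V]

/-- `y` is adjacent in `T` to a piece of the family `G` not containing `y` -/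
def AdjFam (M : Mdl V Ω) (pc : V → V) (G : Finset V) (T : Ω) (y : V) : Prop :=
  ∃ c, pc c ∈ G ∧ pc c ≠ pc y ∧ (M.gr T).Adj c y

noncomputable def fG (M : Mdl V Ω) (pc : V → V) (G : Finset V) (y : V) : ℝ :=
  P1 M (fun T => AdjFam M pc G T y)

/-- `D` is bad for the family `G`: with probability at least `cb` its exit vertex is low and no
other piece of `G` exits there -/
def BadP (M : Mdl V Ω) (pc : V → V) (a : Ω → V → V) (θ cb : ℝ) (G : Finset V) (D : V) : Prop :=
  cb ≤ P1 M (fun T => fG M pc G (a T D) < θ ∧ ∀ D' ∈ G, D' ≠ D → a T D' ≠ a T D)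

/-- the peeling potential -/
noncomputable def Pot (M : Mdl V Ω) (pc : V → V) (a : Ω → V → V) (θ : ℝ) (G : Finset V) : ℝ := by
  classical exact ∑ y, if fG M pc G y < θ then P1 M (fun T => ∃ D ∈ G, a T D = y) else θ

end peel

/-- closeness constants -/
noncomputable def Kc (n m : ℕ) : ℝ := 2 * Real.log (32 * n / m) + 4

noncomputable def tcl (n m : ℕ) : ℕ := ⌈16 * Kc n m * n / m + 3 * Real.sqrt n⌉₊

/-- cost of a leg between the closest two of `m` points -/
noncomputable def cst (n m : ℕ) : ℝ :=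
  if (m : ℝ) < (n : ℝ) ^ (0.12 : ℝ) then n else 8 * (tcl n m : ℝ) * (4 + 4 * Kc n m)

end Pool.Agent.RST
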