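import Mathlib

/-!
# Exploration time of a temporal graph (statement of MP_864bf0_pr)
-/

open MeasureTheory ProbabilityTheory

namespace Pool.Agent.RST

/-- A temporal graph on `[n]` is given by its snapshots `G i`, `i ≥ 1` (`G 0` is never used).
`IsTWalk G v s₀ l`: the list `l` of time-edges `((u, w), s)` is a temporal walk starting at `v`
which uses only time steps `> s₀`: `u` is the current vertex, `uw` is an edge of the snapshot `G s`,
the time steps are strictly increasing. -/
def IsTWalk {n : ℕ} (G : ℕ → SimpleGraph (Fin n)) :
    Fin n → ℕ → List ((Fin n × Fin n) × ℕ) → Prop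
  | _, _, [] => True
  | v, s₀, ((u, w), s) :: l => u = v ∧ s₀ < s ∧ (G s).Adj u w ∧ IsTWalk G w s l

/-- the vertices visited by a temporal walk -/
def visited {n : ℕ} (l : List ((Fin n × Fin n) × ℕ)) : Set (Fin n) :=
  {x | ∃ p ∈ l, x = p.1.1 ∨ x = p.1.2}

/-- the arrival time of a temporal walk (`0` for the empty walk) -/
def arrival {n : ℕ} (l : List ((Fin n × Fin n) × ℕ)) : ℕ := (l.getLast?.map Prod.snd).getD 0

/-- the exploration time: the least `t` such that from every start vertex some temporal walk
visits all vertices with arrival time at most `t`; `⊤` if there is none -/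
noncomputable def texp {n : ℕ} (G : ℕ → SimpleGraph (Fin n)) : ℕ∞ :=
  sInf ((fun t : ℕ => (t : ℕ∞)) '' {t | ∀ v : Fin n, ∃ l, IsTWalk G v 0 l ∧ visited l = Set.univ ∧
    arrival l ≤ t})

/-- the discrete measurable structure on the (finite) set of graphs on `[n]` -/
instance (n : ℕ) : MeasurableSpace (SimpleGraph (Fin n)) := ⊤

end Pool.Agent.RST
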